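import Mathlib

/-!
# Products of linear forms in the square-zero algebra

`K[x_i] / (x_i ^ 2)` has the basis `x_T`, `T` a finite set of indices; an element is given by its
coefficients `Finset ι → K`. `mul a f` is the product of the linear form `∑ a_i x_i` and `f`. The
coefficient of `x_T` in the product of the linear forms given by the rows of a matrix is the
permanent of the columns in `T`.
-/

set_option autoImplicit false

open Finset

namespace Pool.Agent.Q270.PV

section
variable {K : Type*} [Field K] {ι : Type*} [DecidableEq ι]

/-- The product of a linear form and an element of the algebra. -/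
def mul (a : ι → K) (f : Finset ι → K) : Finset ι → K := fun T => ∑ j ∈ T, a j * f (T.erase j)

theorem mul_add_left (a b : ι → K) (f : Finset ι → K) : mul (a + b) f = mul a f + mul b f := by
  funext T
  simp only [mul, Pi.add_apply, add_mul, Finset.sum_add_distrib]

theorem mul_smul_left (c : K) (a : ι → K) (f : Finset ι → K) : mul (c • a) f = c • mul a f := by
  funext T
  simp only [mul, Pi.smul_apply, smul_eq_mul, Finset.mul_sum, mul_assoc]

theorem mul_add_right (a : ι → K) (f g : Finset ι → K) : mul a (f + g) = mul a f + mul a g := by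
  funext T
  simp only [mul, Pi.add_apply, mul_add, Finset.sum_add_distrib]

theorem mul_smul_right (c : K) (a : ι → K) (f : Finset ι → K) : mul a (c • f) = c • mul a f := by
  funext T
  simp only [mul, Pi.smul_apply, smul_eq_mul, Finset.mul_sum]
  refine Finset.sum_congr rfl fun j _ => ?_
  ring

theorem mul_zero_right (a : ι → K) : mul a (0 : Finset ι → K) = 0 := by
  funext T
  simp [mul]

theorem mul_zero_left (f : Finset ι → K) : mul (0 : ι → K) f = 0 := by
  funext T
  simp [mul]

theorem mul_sub_left (a b : ι → K) (f : Finset ι → K) : mul (a - b) f = mul a f - mul b f := by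
  funext T
  simp only [mul, Pi.sub_apply, sub_mul, Finset.sum_sub_distrib]

/-- Products of linear forms commute. -/
theorem mul_comm' (a b : ι → K) (f : Finset ι → K) : mul a (mul b f) = mul b (mul a f) := by
  funext T
  have h : ∀ (a b : ι → K), mul a (mul b f) T =
      ∑ j ∈ T, ∑ l ∈ T, if l ≠ j then a j * b l * f ((T.erase j).erase l) else 0 := by
    intro a b
    simp only [mul]
    refine Finset.sum_congr rfl fun j _ => ?_
    rw [← Finset.filter_ne' T j, Finset.mul_sum, Finset.sum_filter]
    refine Finset.sum_congr rfl fun l _ => ?_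
    split_ifs with hl
    · rw [mul_assoc]
    · rfl
  rw [h a b, h b a, Finset.sum_comm]
  refine Finset.sum_congr rfl fun j _ => Finset.sum_congr rfl fun l _ => ?_
  by_cases hl : j = l
  · rw [if_neg (by simpa using hl), if_neg (by simpa using hl.symm)]
  · rw [if_pos (by simpa using hl), if_pos (by simpa using fun h => hl h.symm),
      Finset.erase_right_comm, mul_comm (a l) (b j)]

theorem mul_single (i : ι) (f : Finset ι → K) (T : Finset ι) :
    mul (Pi.single i 1) f T = if i ∈ T then f (T.erase i) else 0 := by
  simp only [mul]
  by_cases h : i ∈ T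
  · rw [if_pos h, Finset.sum_eq_single i]
    · simp
    · intro j _ hj
      simp [Pi.single_apply, hj]
    · intro h'; exact absurd h h'
  · rw [if_neg h]
    refine Finset.sum_eq_zero fun j hj => ?_
    have hji : j ≠ i := fun e => h (e ▸ hj)
    simp [Pi.single_apply, hji]

theorem mul_single_single (i : ι) (f : Finset ι → K) :
    mul (Pi.single i 1) (mul (Pi.single i 1) f) = 0 := by
  funext T
  rw [mul_single, mul_single]
  simp

/-- The product of the linear forms given by the rows of a matrix with an element. -/
def P : (k : ℕ) → (Fin k → ι → K) → (Finset ι → K) → (Finset ι → K)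
  | 0, _, g => g
  | k + 1, A, g => mul (A 0) (P k (fun i => A i.succ) g)

/-- The element one. -/
def one : Finset ι → K := fun T => if T = ∅ then 1 else 0

/-- The product of the linear forms given by the rows of a matrix. -/
def F (k : ℕ) (A : Fin k → ι → K) : Finset ι → K := P k A one

theorem F_succ (k : ℕ) (A : Fin (k + 1) → ι → K) : F (k + 1) A = mul (A 0) (F k fun i => A i.succ) :=
  rfl

theorem F_zero (A : Fin 0 → ι → K) : F 0 A = one := rfl

theorem mul_P (a : ι → K) : ∀ (k : ℕ) (A : Fin k → ι → K) (g : Finset ι → K),
    mul a (P k A g) = P k A (mul a g)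
  | 0, _, _ => rfl
  | k + 1, A, g => by
    show mul a (mul (A 0) (P k (fun i => A i.succ) g)) = mul (A 0) (P k (fun i => A i.succ) (mul a g))
    rw [mul_comm', mul_P a k]

/-- The product of `k` linear forms is homogeneous of degree `k`. -/
theorem F_degree : ∀ (k : ℕ) (A : Fin k → ι → K) (T : Finset ι), T.card ≠ k → F k A T = 0
  | 0, A, T, h => by
    rw [F_zero, one, if_neg]
    rintro rfl
    exact h rfl
  | k + 1, A, T, h => by
    rw [F_succ]
    refine Finset.sum_eq_zero fun j hj => ?_
    rw [F_degree k _ _, mul_zero]
    rw [Finset.card_erase_of_mem hj]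
    have : 0 < T.card := Finset.card_pos.mpr ⟨j, hj⟩
    omega

/-- If `F k A` is not zero then it has a nonzero coefficient at a set with `k` elements. -/
theorem exists_coeff (k : ℕ) (A : Fin k → ι → K) (h : F k A ≠ 0) :
    ∃ S : Finset ι, S.card = k ∧ F k A S ≠ 0 := by
  obtain ⟨S, hS⟩ := Function.ne_iff.mp h
  refine ⟨S, ?_, hS⟩
  by_contra hc
  exact hS (F_degree k A S hc)

/-! ### Identifying two variables -/

/-- The map from the algebra with one variable less. -/
def J (i j : ι) (u : Finset ι → K) : Finset ι → K := fun T =>
  if j ∈ T then - u (T.erase j) else if i ∈ T then u (T.erase i) else 0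

/-- the row after identifying the variables -/
def red (i j : ι) (a : ι → K) : ι → K := fun l => if l = i then a i - a j else a l

theorem mul_J (i j : ι) (hij : i ≠ j) (a : ι → K) (u : Finset ι → K) :
    mul a (J i j u) = J i j (mul (red i j a) u) := by
  funext T
  simp only [J]
  by_cases hj : j ∈ T
  · rw [if_pos hj]
    simp only [mul, J]
    rw [← Finset.add_sum_erase T _ hj]
    have h1 : ∀ l ∈ T.erase j, a l * (if j ∈ T.erase l then -u ((T.erase l).erase j) else
        if i ∈ T.erase l then u ((T.erase l).erase i) else 0) =
        - (a l * u ((T.erase j).erase l)) := by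
      intro l hl
      have hlj : l ≠ j := (Finset.mem_erase.mp hl).1
      rw [if_pos (Finset.mem_erase.mpr ⟨hlj.symm, hj⟩), Finset.erase_right_comm]
      ring
    rw [Finset.sum_congr rfl h1, if_neg (Finset.notMem_erase j T), Finset.sum_neg_distrib]
    by_cases hi : i ∈ T
    · have hi' : i ∈ T.erase j := Finset.mem_erase.mpr ⟨hij, hi⟩
      rw [if_pos hi', ← Finset.add_sum_erase (T.erase j) _ hi',
        ← Finset.add_sum_erase (T.erase j) (fun l => red i j a l * u ((T.erase j).erase l)) hi']
      have h2 : ∀ l ∈ (T.erase j).erase i, red i j a l * u ((T.erase j).erase l) =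
          a l * u ((T.erase j).erase l) := by
        intro l hl
        have : l ≠ i := (Finset.mem_erase.mp hl).1
        rw [red, if_neg this]
      rw [Finset.sum_congr rfl h2, red, if_pos rfl]
      ring
    · have hi' : i ∉ T.erase j := fun h => hi (Finset.mem_erase.mp h).2
      rw [if_neg hi', mul_zero, zero_add]
      congr 1
      refine Finset.sum_congr rfl fun l hl => ?_
      have : l ≠ i := fun e => hi' (e ▸ hl)
      rw [red, if_neg this]
  · rw [if_neg hj]
    simp only [mul, J]
    by_cases hi : i ∈ T
    · rw [if_pos hi, ← Finset.add_sum_erase T _ hi]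
      have hj' : ∀ l, j ∉ T.erase l := fun l h => hj (Finset.mem_erase.mp h).2
      rw [if_neg (hj' i), if_neg (Finset.notMem_erase i T), mul_zero, zero_add]
      refine Finset.sum_congr rfl fun l hl => ?_
      have hli : l ≠ i := (Finset.mem_erase.mp hl).1
      rw [if_neg (hj' l), if_pos (Finset.mem_erase.mpr ⟨hli.symm, hi⟩), red, if_neg hli,
        Finset.erase_right_comm]
    · rw [if_neg hi]
      refine Finset.sum_eq_zero fun l _ => ?_
      rw [if_neg fun h => hj (Finset.mem_erase.mp h).2, if_neg fun h => hi (Finset.mem_erase.mp h).2,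
        mul_zero]

theorem P_J (i j : ι) (hij : i ≠ j) : ∀ (k : ℕ) (A : Fin k → ι → K) (u : Finset ι → K),
    P k A (J i j u) = J i j (P k (fun r => red i j (A r)) u)
  | 0, _, _ => rfl
  | k + 1, A, u => by
    show mul (A 0) (P k (fun r => A r.succ) (J i j u)) =
      J i j (mul (red i j (A 0)) (P k (fun r => red i j (A r.succ)) u))
    rw [P_J i j hij k, mul_J i j hij]

theorem J_one (i j : ι) (hij : i ≠ j) :
    J i j (one : Finset ι → K) = mul (Pi.single i 1 - Pi.single j 1) one := by
  funext T
  rw [mul_sub_left, Pi.sub_apply, mul_single, mul_single]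
  simp only [J, one]
  by_cases hj : j ∈ T
  · rw [if_pos hj, if_pos hj]
    by_cases hi : i ∈ T
    · rw [if_pos hi]
      have h1 : T.erase i ≠ ∅ := Finset.Nonempty.ne_empty ⟨j, Finset.mem_erase.mpr ⟨hij.symm, hj⟩⟩
      rw [if_neg h1, zero_sub]
    · rw [if_neg hi, zero_sub]
  · rw [if_neg hj, if_neg hj, sub_zero]

/-- If the product is annihilated by `x_i - x_j`, then the product of the forms with the two
variables identified is zero at all sets which do not contain `j`. -/
theorem red_zero {k : ℕ} (i j : ι) (hij : i ≠ j) (A : Fin k → ι → K)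
    (h : mul (Pi.single i 1 - Pi.single j 1) (F k A) = 0) (S : Finset ι) (hS : j ∉ S) :
    F k (fun r => red i j (A r)) S = 0 := by
  rw [F, mul_P, ← J_one i j hij, P_J i j hij] at h
  have h1 := congrFun h (insert j S)
  simp only [J, Pi.zero_apply] at h1
  rw [if_pos (Finset.mem_insert_self j S), Finset.erase_insert hS, neg_eq_zero] at h1
  exact h1

/-- Restriction of the columns. -/
theorem F_map {κ : Type*} [DecidableEq κ] (φ : κ ↪ ι) : ∀ (k : ℕ) (A : Fin k → ι → K) (T : Finset κ),
    F k A (T.map φ) = F k (fun r l => A r (φ l)) T
  | 0, A, T => by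
    simp only [F_zero, one, Finset.map_eq_empty]
  | k + 1, A, T => by
    rw [F_succ, F_succ]
    simp only [mul]
    rw [Finset.sum_map]
    refine Finset.sum_congr rfl fun l _ => ?_
    rw [← Finset.map_erase, F_map φ k]

end

end Pool.Agent.Q270.PV
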