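import Pool.Agent.Q270.PV.Alg

/-!
# Counting matrices whose permanental rank is not full

`W K k N` is the number of `k × N` matrices over the finite field `K` all of whose `k × k`
permanents are zero.
-/

set_option autoImplicit false

open Finset

namespace Pool.Agent.Q270.PV

variable {K : Type*} [Field K] [Fintype K]

open Classical in
/-- The number of `k × N` matrices the product of whose rows is zero. -/
noncomputable def W (K : Type*) [Field K] [Fintype K] (k N : ℕ) : ℕ :=
  (univ.filter fun A : Fin k → Fin N → K => F k A = 0).card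

open Classical in
/-- The number of linear forms annihilating `f`. -/
noncomputable def kerc {N : ℕ} (f : Finset (Fin N) → K) : ℕ :=
  (univ.filter fun l : Fin N → K => mul l f = 0).card

open Classical in
/-- The number of pairs of variables with the same product with `f`. -/
noncomputable def eqp {N : ℕ} (f : Finset (Fin N) → K) : ℕ :=
  (univ.filter fun p : Fin N × Fin N => mul (Pi.single p.1 (1 : K)) f = mul (Pi.single p.2 1) f).card

open Classical in
/-- The number of linear forms the squares of which annihilate `f`. -/
noncomputable def zc {N : ℕ} (f : Finset (Fin N) → K) : ℕ :=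
  (univ.filter fun l : Fin N → K => mul l (mul l f) = 0).card

theorem W_succ (k N : ℕ) : W K (k + 1) N = ∑ A : Fin k → Fin N → K, kerc (F k A) := by
  classical
  unfold W kerc
  rw [Finset.card_filter, ← (Fin.consEquiv fun _ => Fin N → K).sum_comp, Fintype.sum_prod_type_right]
  refine Finset.sum_congr rfl fun A _ => ?_
  rw [Finset.card_filter]
  refine Finset.sum_congr rfl fun l _ => ?_
  rw [F_succ]
  rfl

theorem card_row (N : ℕ) : Fintype.card (Fin N → K) = Fintype.card K ^ N := by
  rw [Fintype.card_fun, Fintype.card_fin]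

theorem card_mat (k N : ℕ) : Fintype.card (Fin k → Fin N → K) = Fintype.card K ^ (k * N) := by
  rw [Fintype.card_fun, Fintype.card_fin, card_row, ← pow_mul, mul_comm]

theorem kerc_zero {N : ℕ} : kerc (0 : Finset (Fin N) → K) = Fintype.card K ^ N := by
  classical
  unfold kerc
  rw [Finset.filter_true_of_mem fun l _ => mul_zero_right l, Finset.card_univ, card_row]

theorem eqp_zero {N : ℕ} : eqp (0 : Finset (Fin N) → K) = N ^ 2 := by
  classical
  unfold eqp
  rw [Finset.filter_true_of_mem fun p _ => by rw [mul_zero_right, mul_zero_right], Finset.card_univ,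
    Fintype.card_prod, Fintype.card_fin, sq]

/-- Few linear forms annihilate a nonzero product of `k` linear forms. -/
theorem kerc_le {k N : ℕ} (A : Fin k → Fin N → K) (h : F k A ≠ 0) :
    kerc (F k A) ≤ Fintype.card K ^ k := by
  classical
  obtain ⟨S, hS, hf⟩ := exists_coeff k A h
  have h1 : Fintype.card (S → K) = Fintype.card K ^ k := by
    rw [Fintype.card_fun, Fintype.card_coe, hS]
  rw [← h1, ← Finset.card_univ]
  unfold kerc
  refine Finset.card_le_card_of_injOn (fun l => fun s : S => l s) (fun _ _ => Finset.mem_univ _) ?_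
  intro l hl l' hl' hll
  have hl1 : mul l (F k A) = 0 := (Finset.mem_filter.mp hl).2
  have hl2 : mul l' (F k A) = 0 := (Finset.mem_filter.mp hl').2
  have h2 : mul (l - l') (F k A) = 0 := by rw [mul_sub_left, hl1, hl2, sub_zero]
  have h3 : ∀ s ∈ S, (l - l') s = 0 := by
    intro s hs
    have := congrFun hll ⟨s, hs⟩
    simp only at this
    rw [Pi.sub_apply, this, sub_self]
  funext j
  by_cases hj : j ∈ S
  · exact congrFun hll ⟨j, hj⟩
  · have h4 := congrFun h2 (insert j S)
    rw [Pi.zero_apply, mul, Finset.sum_insert hj, Finset.erase_insert hj,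
      Finset.sum_eq_zero fun s hs => by rw [h3 s hs, zero_mul], add_zero] at h4
    have h5 : (l - l') j = 0 := (mul_eq_zero.mp h4).resolve_right hf
    exact sub_eq_zero.mp h5

/-- the number of roots of a quadratic polynomial -/
theorem card_quad (a b c : K) (ha : a ≠ 0) [DecidableEq K] :
    (univ.filter fun t : K => c + t * b + t * t * a = 0).card ≤ 2 := by
  classical
  have h1 : (univ.filter fun t : K => c + t * b + t * t * a = 0) ⊆
      (Polynomial.C a * Polynomial.X ^ 2 + Polynomial.C b * Polynomial.X +
        Polynomial.C c).roots.toFinset := by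
    intro t ht
    have h2 := (Finset.mem_filter.mp ht).2
    rw [Multiset.mem_toFinset, Polynomial.mem_roots']
    refine ⟨?_, ?_⟩
    · intro h0
      have h3 := Polynomial.natDegree_quadratic (b := b) (c := c) ha
      rw [h0] at h3
      simp at h3
    · simp only [Polynomial.IsRoot, Polynomial.eval_add, Polynomial.eval_mul, Polynomial.eval_C,
        Polynomial.eval_pow, Polynomial.eval_X]
      rw [← h2]
      ring
  refine (Finset.card_le_card h1).trans ((Multiset.toFinset_card_le _).trans ?_)
  refine (Polynomial.card_roots' _).trans ?_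
  rw [Polynomial.natDegree_quadratic ha]

/-- Few linear forms have a square that annihilates `f`. -/
theorem zc_le {N : ℕ} (f : Finset (Fin N) → K) (d : Fin N → K) (T : Finset (Fin N))
    (hd : mul d (mul d f) T ≠ 0) : Fintype.card K * zc f ≤ 2 * Fintype.card K ^ N := by
  classical
  have h1 : Fintype.card K * zc f =
      ∑ l : Fin N → K, ∑ t : K, if mul (l + t • d) (mul (l + t • d) f) = 0 then 1 else 0 := by
    rw [Finset.sum_comm]
    have h2 : ∀ t : K, (∑ l : Fin N → K, if mul (l + t • d) (mul (l + t • d) f) = 0 then 1 else 0)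
        = zc f := by
      intro t
      unfold zc
      rw [Finset.card_filter]
      exact Equiv.sum_comp (Equiv.addRight (t • d)) fun l => if mul l (mul l f) = 0 then 1 else 0
    rw [Finset.sum_congr rfl fun t _ => h2 t, Finset.sum_const, Finset.card_univ, smul_eq_mul]
  have h3 : ∀ l : Fin N → K,
      (∑ t : K, if mul (l + t • d) (mul (l + t • d) f) = 0 then 1 else 0) ≤ 2 := by
    intro l
    rw [← Finset.card_filter]
    refine le_trans (Finset.card_le_card ?_) (card_quad (mul d (mul d f) T)
      (2 * mul l (mul d f) T) (mul l (mul l f) T) hd)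
    intro t ht
    have h4 := congrFun (Finset.mem_filter.mp ht).2 T
    refine Finset.mem_filter.mpr ⟨Finset.mem_univ _, ?_⟩
    rw [mul_add_left, mul_add_left, mul_smul_left, mul_smul_left, mul_add_right, mul_add_right,
      mul_smul_right, mul_smul_right, mul_comm' d l] at h4
    simp only [Pi.add_apply, Pi.smul_apply, smul_eq_mul, Pi.zero_apply] at h4
    rw [← h4]
    ring
  rw [h1]
  refine (Finset.sum_le_sum fun l _ => h3 l).trans ?_
  rw [Finset.sum_const, Finset.card_univ, card_row, smul_eq_mul, mul_comm]

open Classical in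
/-- the products of `f` with the variables -/
noncomputable def D {N : ℕ} (f : Finset (Fin N) → K) : Finset (Finset (Fin N) → K) :=
  univ.image fun i : Fin N => mul (Pi.single i (1 : K)) f

theorem D_mul_kerc_le {N : ℕ} (f : Finset (Fin N) → K) :
    (D f).card * kerc f ≤ zc f := by
  classical
  have h1 : ∀ v ∈ D f, (univ.filter fun l : Fin N → K => mul l f = v).card = kerc f := by
    intro v hv
    obtain ⟨i, -, hi⟩ := Finset.mem_image.mp hv
    unfold kerc
    refine Finset.card_bij' (fun l _ => l - Pi.single i 1) (fun l _ => l + Pi.single i 1) ?_ ?_ ?_ ?_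
    · intro l hl
      refine Finset.mem_filter.mpr ⟨Finset.mem_univ _, ?_⟩
      rw [mul_sub_left, (Finset.mem_filter.mp hl).2, hi, sub_self]
    · intro l hl
      refine Finset.mem_filter.mpr ⟨Finset.mem_univ _, ?_⟩
      rw [mul_add_left, (Finset.mem_filter.mp hl).2, hi, zero_add]
    · intro l _; simp
    · intro l _; simp
  have h2 : (univ.filter fun l : Fin N → K => mul l f ∈ D f).card = (D f).card * kerc f := by
    have h3 := Finset.card_eq_sum_card_fiberwise (f := fun l : Fin N → K => mul l f)
      (s := univ.filter fun l : Fin N → K => mul l f ∈ D f) (t := D f)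
      (fun l hl => (Finset.mem_filter.mp hl).2)
    rw [h3, ← smul_eq_mul, ← Finset.sum_const]
    refine Finset.sum_congr rfl fun v hv => ?_
    rw [← h1 v hv]
    congr 1
    ext l
    simp only [Finset.mem_filter, Finset.mem_univ, true_and]
    constructor
    · rintro ⟨_, h⟩; exact h
    · intro h; exact ⟨h ▸ hv, h⟩
  rw [← h2]
  unfold zc
  refine Finset.card_le_card fun l hl => ?_
  obtain ⟨i, -, hi⟩ := Finset.mem_image.mp (Finset.mem_filter.mp hl).2
  refine Finset.mem_filter.mpr ⟨Finset.mem_univ _, ?_⟩
  have hi' : mul (Pi.single i 1) f = mul l f := hi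
  rw [← hi', mul_comm', ← hi', mul_single_single]

theorem sq_le_D_mul_eqp {N : ℕ} (f : Finset (Fin N) → K) :
    N ^ 2 ≤ (D f).card * eqp f := by
  classical
  set g : Fin N → (Finset (Fin N) → K) := fun i => mul (Pi.single i (1 : K)) f with hg
  have h1 : N = ∑ v ∈ D f, (univ.filter fun i => g i = v).card := by
    have := Finset.card_eq_sum_card_image g (univ : Finset (Fin N))
    rw [Finset.card_univ, Fintype.card_fin] at this
    exact this
  have h2 : eqp f = ∑ v ∈ D f, (univ.filter fun i => g i = v).card ^ 2 := by
    unfold eqp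
    rw [Finset.card_eq_sum_card_fiberwise (f := fun p => g p.1) (t := D f)
      (fun p _ => Finset.mem_image.mpr ⟨p.1, Finset.mem_univ _, rfl⟩)]
    refine Finset.sum_congr rfl fun v _ => ?_
    rw [sq, ← Finset.card_product]
    congr 1
    ext p
    simp only [Finset.mem_filter, Finset.mem_univ, true_and, Finset.mem_product]
    constructor
    · rintro ⟨h, h'⟩; exact ⟨h', h.symm.trans h'⟩
    · rintro ⟨h, h'⟩; exact ⟨h.trans h'.symm, h⟩
  calc N ^ 2 = (∑ v ∈ D f, (univ.filter fun i => g i = v).card) ^ 2 := by rw [← h1]
    _ ≤ (D f).card * ∑ v ∈ D f, (univ.filter fun i => g i = v).card ^ 2 := by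
      exact_mod_cast sq_sum_le_card_mul_sum_sq (s := D f)
        (f := fun v => ((univ.filter fun i => g i = v).card : ℤ))
    _ = (D f).card * eqp f := by rw [← h2]

/-- The main inequality for one matrix. -/
theorem main_one {k N : ℕ} (h2 : (2 : K) ≠ 0) (hk : k + 2 ≤ N) (A : Fin k → Fin N → K)
    (h : F k A ≠ 0) : Fintype.card K * (N ^ 2 * kerc (F k A)) ≤
      2 * (Fintype.card K ^ N * eqp (F k A)) := by
  classical
  obtain ⟨S, hS, hf⟩ := exists_coeff k A h
  obtain ⟨i, hi, j, hj, hij⟩ : ∃ i ∈ Sᶜ, ∃ j ∈ Sᶜ, i ≠ j := by
    have h3 : 1 < (Sᶜ).card := by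
      rw [Finset.card_compl, Fintype.card_fin, hS]
      omega
    obtain ⟨i, j, hi, hj, hij⟩ := Finset.one_lt_card_iff.mp h3
    exact ⟨i, hi, j, hj, hij⟩
  rw [Finset.mem_compl] at hi hj
  set f := F k A with hfdef
  have hjS : i ∉ insert j S := by
    rw [Finset.mem_insert]
    rintro (h | h)
    · exact hij h
    · exact hi h
  have h3 : mul (Pi.single i 1) (mul (Pi.single j 1) f) (insert i (insert j S)) = f S := by
    rw [mul_single, if_pos (Finset.mem_insert_self _ _), Finset.erase_insert hjS, mul_single,
      if_pos (Finset.mem_insert_self _ _), Finset.erase_insert hj]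
  have h4 : mul (Pi.single i 1 + Pi.single j 1) (mul (Pi.single i 1 + Pi.single j 1) f)
      (insert i (insert j S)) ≠ 0 := by
    rw [mul_add_left, mul_add_left, mul_add_right, mul_add_right, mul_single_single,
      mul_single_single, mul_comm' (Pi.single j 1) (Pi.single i 1), zero_add, add_zero, Pi.add_apply,
      h3, ← two_mul]
    exact mul_ne_zero h2 hf
  have h5 := zc_le f _ _ h4
  have h6 := D_mul_kerc_le f
  have h7 := sq_le_D_mul_eqp f
  calc Fintype.card K * (N ^ 2 * kerc f) ≤ Fintype.card K * (((D f).card * eqp f) * kerc f) := by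
        gcongr
    _ = (Fintype.card K * ((D f).card * kerc f)) * eqp f := by ring
    _ ≤ (Fintype.card K * zc f) * eqp f := by gcongr
    _ ≤ (2 * Fintype.card K ^ N) * eqp f := by gcongr
    _ = 2 * (Fintype.card K ^ N * eqp f) := by ring

open Classical in
/-- The number of matrices for which the products with two variables agree. -/
theorem pair_le {k N : ℕ} (i j : Fin (N + 1)) (hij : i ≠ j) :
    (univ.filter fun A : Fin k → Fin (N + 1) → K =>
      mul (Pi.single i (1 : K)) (F k A) = mul (Pi.single j 1) (F k A)).card ≤
      Fintype.card K ^ k * W K k N := by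
  have h1 : Fintype.card K ^ k * W K k N = ((univ : Finset (Fin k → K)) ×ˢ
      (univ.filter fun A : Fin k → Fin N → K => F k A = 0)).card := by
    rw [Finset.card_product, Finset.card_univ, card_row, W]
  rw [h1]
  refine Finset.card_le_card_of_injOn
    (fun A => (fun r => A r j, fun r l => red i j (A r) (j.succAbove l))) ?_ ?_
  · intro A hA
    have h2 : mul (Pi.single i (1 : K)) (F k A) = mul (Pi.single j 1) (F k A) :=
      (Finset.mem_filter.mp hA).2
    refine Finset.mem_coe.mpr (Finset.mem_product.mpr ⟨Finset.mem_univ _,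
      Finset.mem_filter.mpr ⟨Finset.mem_univ _, ?_⟩⟩)
    funext T
    have h3 := red_zero i j hij A (by rw [mul_sub_left, h2, sub_self])
      (T.map (Fin.succAboveEmb j)) (by
        rw [Finset.mem_map]
        rintro ⟨l, _, hl⟩
        exact Fin.succAbove_ne j l hl)
    rw [F_map] at h3
    exact h3
  · intro A _ B _ hAB
    have h2 : (fun r => A r j) = fun r => B r j := congrArg Prod.fst hAB
    have h3 : (fun r l => red i j (A r) (j.succAbove l)) =
        fun r (l : Fin N) => red i j (B r) (j.succAbove l) := congrArg Prod.snd hAB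
    funext r m
    rcases Fin.eq_self_or_eq_succAbove j m with rfl | ⟨l, rfl⟩
    · exact congrFun h2 r
    · have h4 := congrFun (congrFun h3 r) l
      have h5 : A r j = B r j := congrFun h2 r
      simp only [red] at h4
      by_cases h6 : j.succAbove l = i
      · rw [if_pos h6, if_pos h6, h5] at h4
        rw [h6]
        exact sub_left_injective h4
      · rw [if_neg h6, if_neg h6] at h4
        exact h4

theorem sum_eqp_le (k N : ℕ) : ∑ A : Fin k → Fin (N + 1) → K, eqp (F k A) ≤
    (N + 1) * Fintype.card K ^ (k * (N + 1)) + (N + 1) * N * (Fintype.card K ^ k * W K k N) := by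
  classical
  have h1 : ∀ A : Fin k → Fin (N + 1) → K, eqp (F k A) = ∑ i : Fin (N + 1), ∑ j : Fin (N + 1),
      if mul (Pi.single i (1 : K)) (F k A) = mul (Pi.single j 1) (F k A) then 1 else 0 := by
    intro A
    unfold eqp
    rw [Finset.card_filter, Fintype.sum_prod_type]
  rw [Finset.sum_congr rfl fun A _ => h1 A, Finset.sum_comm]
  have h2 : ∀ i : Fin (N + 1), (∑ A : Fin k → Fin (N + 1) → K, ∑ j : Fin (N + 1),
      if mul (Pi.single i (1 : K)) (F k A) = mul (Pi.single j 1) (F k A) then 1 else 0) ≤
      Fintype.card K ^ (k * (N + 1)) + N * (Fintype.card K ^ k * W K k N) := by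
    intro i
    rw [Finset.sum_comm, ← Finset.add_sum_erase _ _ (Finset.mem_univ i)]
    refine Nat.add_le_add ?_ ?_
    · rw [← Finset.card_filter]
      refine (Finset.card_le_univ _).trans ?_
      rw [card_mat]
    · have h3 : (univ.erase i).card = N := by
        rw [Finset.card_erase_of_mem (Finset.mem_univ i), Finset.card_univ, Fintype.card_fin,
          Nat.add_sub_cancel]
      refine (Finset.sum_le_card_nsmul (univ.erase i) _ (Fintype.card K ^ k * W K k N) ?_).trans ?_
      · intro j hj
        rw [← Finset.card_filter]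
        convert pair_le (K := K) (k := k) i j (Finset.mem_erase.mp hj).1.symm
      · rw [h3, smul_eq_mul]
  refine (Finset.sum_le_card_nsmul univ _ _ fun i _ => h2 i).trans ?_
  rw [Finset.card_univ, Fintype.card_fin, smul_eq_mul]
  apply le_of_eq
  ring

end Pool.Agent.Q270.PV
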