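import Pool.Agent.Q270.PV.Perm

/-!
# The limit

`w k N` is the probability that all `k × k` permanents of a random `k × N` matrix over `K` are zero.
-/

set_option autoImplicit false

open Finset Filter Topology

namespace Pool.Agent.Q270.PV

/-- A sequence which contracts towards another sequence. -/
theorem contract {κ B : ℝ} (h0 : 0 ≤ κ) (h1 : κ < 1) (hB : 0 ≤ B) {a b e : ℕ → ℝ}
    (ha : ∀ k, a k ≤ 1) (hb : ∀ δ : ℝ, 0 < δ → ∀ᶠ k in atTop, b k ≤ B + δ)
    (he : Tendsto e atTop (𝓝 0)) (h : ∀ k, a (k + 1) ≤ κ * a k + (1 - κ) * b k + e k) :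
    ∀ δ : ℝ, 0 < δ → ∀ᶠ k in atTop, a k ≤ B + δ := by
  intro δ hδ
  have h2 : ∀ᶠ k in atTop, b k ≤ B + δ / 4 := hb _ (by positivity)
  have h3 : ∀ᶠ k in atTop, e k < (1 - κ) * (δ / 4) :=
    he.eventually_lt_const (mul_pos (by linarith) (by positivity))
  obtain ⟨n, hn⟩ := eventually_atTop.mp (h2.and h3)
  have h4 : ∀ m, a (n + m) - (B + δ / 2) ≤ κ ^ m := by
    intro m
    induction m with
    | zero =>
      have := ha (n + 0)
      rw [pow_zero]
      linarith
    | succ m ih =>
      have h5 := hn (n + m) (Nat.le_add_right n m)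
      have h6 := h (n + m)
      have h7 : (1 - κ) * b (n + m) ≤ (1 - κ) * (B + δ / 4) :=
        mul_le_mul_of_nonneg_left h5.1 (by linarith)
      have h8 : κ * (a (n + m) - (B + δ / 2)) ≤ κ * κ ^ m := mul_le_mul_of_nonneg_left ih h0
      have h9 : a (n + (m + 1)) = a (n + m + 1) := by rw [Nat.add_assoc]
      rw [h9, pow_succ']
      have h10 := h5.2
      nlinarith
  obtain ⟨m, hm⟩ := exists_pow_lt_of_lt_one (show (0 : ℝ) < δ / 2 by positivity) h1
  refine eventually_atTop.mpr ⟨n + m, fun k hk => ?_⟩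
  obtain ⟨j, rfl⟩ := Nat.exists_eq_add_of_le hk
  have h5 := h4 (m + j)
  have h6 : κ ^ (m + j) ≤ κ ^ m := pow_le_pow_of_le_one h0 h1.le (Nat.le_add_right m j)
  rw [← Nat.add_assoc] at h5
  linarith

variable (K : Type*) [Field K] [Fintype K]

/-- the number of elements of the field -/
noncomputable def qr : ℝ := (Fintype.card K : ℝ)

theorem one_lt_qr : 1 < qr K := by
  unfold qr
  exact_mod_cast Fintype.one_lt_card (α := K)

theorem qr_pos : 0 < qr K := lt_trans one_pos (one_lt_qr K)

/-- The probability that a random `k × N` matrix does not have full permanental rank. -/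
noncomputable def w (k N : ℕ) : ℝ := (W K k N : ℝ) / qr K ^ (k * N)

theorem w_nonneg (k N : ℕ) : 0 ≤ w K k N := by
  have := qr_pos K
  unfold w
  positivity

theorem w_le_one (k N : ℕ) : w K k N ≤ 1 := by
  classical
  have := qr_pos K
  unfold w
  rw [div_le_one (by positivity)]
  have h : W K k N ≤ Fintype.card K ^ (k * N) := by
    rw [← card_mat]
    exact Finset.card_le_univ _
  unfold qr
  exact_mod_cast h

theorem w_zero (N : ℕ) : w K 0 N = 0 := by
  classical
  have h : W K 0 N = 0 := by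
    unfold W
    rw [Finset.card_eq_zero, Finset.filter_eq_empty_iff]
    intro A _ h
    have := congrFun h ∅
    simp [F_zero, one] at this
  unfold w
  rw [h]
  simp

theorem w_succ_le (k N : ℕ) : w K (k + 1) N ≤ w K k N + qr K ^ k / qr K ^ N := by
  classical
  have hq := qr_pos K
  have h1 : ∀ A : Fin k → Fin N → K, (kerc (F k A) : ℝ) ≤
      qr K ^ k + (if F k A = 0 then qr K ^ N else 0) := by
    intro A
    split_ifs with h
    · rw [h, kerc_zero]
      unfold qr
      push_cast
      have : (0 : ℝ) ≤ (Fintype.card K : ℝ) ^ k := by positivity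
      linarith
    · rw [add_zero]
      unfold qr
      exact_mod_cast kerc_le A h
  have h2 : (W K (k + 1) N : ℝ) ≤ qr K ^ (k * N) * qr K ^ k + W K k N * qr K ^ N := by
    rw [W_succ]
    push_cast
    refine (Finset.sum_le_sum fun A _ => h1 A).trans (le_of_eq ?_)
    rw [Finset.sum_add_distrib, Finset.sum_const, ← Finset.sum_filter, Finset.sum_const,
      Finset.card_univ, card_mat]
    have h3 : (univ.filter fun A : Fin k → Fin N → K => F k A = 0).card = W K k N := by
      unfold W
      congr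
    rw [h3]
    simp only [nsmul_eq_mul]
    unfold qr
    push_cast
    ring
  unfold w
  rw [div_le_iff₀ (by positivity)]
  refine h2.trans (le_of_eq ?_)
  have h4 : qr K ^ ((k + 1) * N) = qr K ^ (k * N) * qr K ^ N := by rw [← pow_add]; ring_nf
  rw [h4]
  field_simp
  ring

theorem w_le (k N : ℕ) : w K k N ≤ qr K ^ k / qr K ^ N := by
  have hq := qr_pos K
  have hq2 : 2 ≤ qr K := by
    unfold qr
    exact_mod_cast Fintype.one_lt_card (α := K)
  induction k with
  | zero =>
    rw [w_zero]
    positivity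
  | succ k ih =>
    have h := w_succ_le K k N
    have h1 : qr K ^ (k + 1) / qr K ^ N = qr K * (qr K ^ k / qr K ^ N) := by
      rw [pow_succ]; ring
    have h2 : 0 ≤ qr K ^ k / qr K ^ N := by positivity
    rw [h1]
    nlinarith

theorem w_main (h2 : (2 : K) ≠ 0) {k N : ℕ} (hk : k + 1 ≤ N) :
    w K (k + 1) (N + 1) ≤ 2 / qr K * w K k N + (1 - 2 / qr K) * w K k (N + 1) +
      2 / qr K / (N + 1) := by
  classical
  have hq := qr_pos K
  have hn : (0 : ℝ) < (N : ℝ) + 1 := by positivity
  have h1 : ∀ A : Fin k → Fin (N + 1) → K, qr K * (((N : ℝ) + 1) ^ 2 * kerc (F k A)) ≤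
      2 * (qr K ^ (N + 1) * eqp (F k A)) +
      (if F k A = 0 then (qr K - 2) * ((N : ℝ) + 1) ^ 2 * qr K ^ (N + 1) else 0) := by
    intro A
    split_ifs with h
    · rw [h, kerc_zero, eqp_zero]
      unfold qr
      push_cast
      apply le_of_eq
      ring
    · rw [add_zero]
      have := main_one h2 (by omega : k + 2 ≤ N + 1) A h
      unfold qr
      exact_mod_cast this
  have h3 : qr K * (((N : ℝ) + 1) ^ 2 * W K (k + 1) (N + 1)) ≤
      2 * (qr K ^ (N + 1) * (((N : ℝ) + 1) * qr K ^ (k * (N + 1)) +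
        ((N : ℝ) + 1) * N * (qr K ^ k * W K k N))) +
      (qr K - 2) * ((N : ℝ) + 1) ^ 2 * qr K ^ (N + 1) * W K k (N + 1) := by
    have h4 : (∑ A : Fin k → Fin (N + 1) → K, (eqp (F k A) : ℝ)) ≤
        ((N : ℝ) + 1) * qr K ^ (k * (N + 1)) + ((N : ℝ) + 1) * N * (qr K ^ k * W K k N) := by
      unfold qr
      exact_mod_cast sum_eqp_le (K := K) k N
    have h5 : qr K * (((N : ℝ) + 1) ^ 2 * W K (k + 1) (N + 1)) ≤
        2 * (qr K ^ (N + 1) * ∑ A : Fin k → Fin (N + 1) → K, (eqp (F k A) : ℝ)) +
        (qr K - 2) * ((N : ℝ) + 1) ^ 2 * qr K ^ (N + 1) * W K k (N + 1) := by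
      rw [W_succ]
      push_cast
      rw [Finset.mul_sum, Finset.mul_sum]
      refine (Finset.sum_le_sum fun A _ => h1 A).trans (le_of_eq ?_)
      rw [Finset.sum_add_distrib, ← Finset.sum_filter, Finset.sum_const]
      have h6 : (univ.filter fun A : Fin k → Fin (N + 1) → K => F k A = 0).card = W K k (N + 1) := by
        unfold W
        congr
      rw [h6, nsmul_eq_mul, Finset.mul_sum, Finset.mul_sum]
      ring
    refine h5.trans ?_
    have h7 : 0 ≤ qr K ^ (N + 1) := by positivity
    have h8 := mul_le_mul_of_nonneg_left h4 h7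
    linarith
  have h9 : (N : ℝ) * W K k N ≤ ((N : ℝ) + 1) * W K k N := by
    have : (0 : ℝ) ≤ W K k N := by positivity
    nlinarith
  have h10 : qr K * (((N : ℝ) + 1) ^ 2 * W K (k + 1) (N + 1)) ≤
      2 * (qr K ^ (N + 1) * (((N : ℝ) + 1) * qr K ^ (k * (N + 1)) +
        ((N : ℝ) + 1) ^ 2 * (qr K ^ k * W K k N))) +
      (qr K - 2) * ((N : ℝ) + 1) ^ 2 * qr K ^ (N + 1) * W K k (N + 1) := by
    refine h3.trans ?_
    have h11 : ((N : ℝ) + 1) * N * (qr K ^ k * W K k N) ≤
        ((N : ℝ) + 1) ^ 2 * (qr K ^ k * W K k N) := by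
      have : 0 ≤ qr K ^ k * (W K k N : ℝ) := by positivity
      nlinarith
    have h12 : 0 ≤ qr K ^ (N + 1) := by positivity
    have h13 := mul_le_mul_of_nonneg_left h11 h12
    linarith
  unfold w
  rw [div_le_iff₀ (by positivity)]
  have e1 : qr K ^ ((k + 1) * (N + 1)) = qr K ^ (k * (N + 1)) * qr K ^ (N + 1) := by
    rw [← pow_add]; ring_nf
  have e2 : qr K ^ (k * (N + 1)) = qr K ^ (k * N) * qr K ^ k := by
    rw [← pow_add]; ring_nf
  rw [e1]
  have h14 : (W K (k + 1) (N + 1) : ℝ) = (qr K * (((N : ℝ) + 1) ^ 2 * W K (k + 1) (N + 1))) /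
      (qr K * ((N : ℝ) + 1) ^ 2) := by
    field_simp
  rw [h14]
  rw [div_le_iff₀ (by positivity)]
  refine h10.trans (le_of_eq ?_)
  rw [e2]
  field_simp
  ring

/-- The probabilities tend to zero. -/
theorem w_small (h2 : (2 : K) ≠ 0) (s : ℕ) (hs : 1 ≤ s) (j : ℕ) :
    ∀ δ : ℝ, 0 < δ → ∀ᶠ k in atTop, w K k (k + s) ≤ 1 / qr K ^ (s + j) + δ := by
  have hq := qr_pos K
  have hq3 : 3 ≤ qr K := by
    have h3 : 2 < Fintype.card K := by
      have h4 := Fintype.one_lt_card (α := K)
      by_contra hcon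
      have h5 : Fintype.card K = 2 := by omega
      have h6 : (2 : K) = 0 := by
        have := FiniteField.cast_card_eq_zero K
        rw [h5] at this
        exact_mod_cast this
      exact h2 h6
    unfold qr
    exact_mod_cast h3
  induction j generalizing s with
  | zero =>
    intro δ hδ
    refine Filter.Eventually.of_forall fun k => ?_
    have h := w_le K k (k + s)
    have h1 : qr K ^ k / qr K ^ (k + s) = 1 / qr K ^ (s + 0) := by
      rw [pow_add, add_zero]
      field_simp
    rw [h1] at h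
    linarith
  | succ j ih =>
    have hk0 : 0 ≤ 2 / qr K := by positivity
    have hk1 : 2 / qr K < 1 := by
      rw [div_lt_one hq]
      linarith
    refine contract (b := fun k => w K k (k + (s + 1))) (e := fun k : ℕ => 2 / qr K / ((k : ℝ) + s + 1))
      hk0 hk1 (by positivity) (fun k => w_le_one K k (k + s)) ?_ ?_ ?_
    · have := ih (s + 1) (by omega)
      have e : s + 1 + j = s + (j + 1) := by ring
      rw [e] at this
      exact this
    · have h1 : Tendsto (fun k : ℕ => (k : ℝ) + s + 1) atTop atTop := by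
        have := tendsto_natCast_atTop_atTop (R := ℝ)
        exact tendsto_atTop_add_const_right _ _ (tendsto_atTop_add_const_right _ _ this)
      exact h1.const_div_atTop _
    · intro k
      have h := w_main K h2 (show k + 1 ≤ k + s by omega)
      have e1 : k + 1 + s = k + s + 1 := by ring
      have e2 : k + (s + 1) = k + s + 1 := by ring
      rw [e1]
      simp only [e2]
      push_cast at h
      exact h

theorem w_tendsto (h2 : (2 : K) ≠ 0) : Tendsto (fun k => w K k (k + 1)) atTop (𝓝 0) := by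
  have hq1 := one_lt_qr K
  have hq := qr_pos K
  rw [Metric.tendsto_nhds]
  intro ε hε
  obtain ⟨j, hj⟩ := exists_pow_lt_of_lt_one (show (0 : ℝ) < ε / 2 by positivity)
    (show 1 / qr K < 1 by rw [div_lt_one hq]; exact hq1)
  filter_upwards [w_small K h2 1 le_rfl j (ε / 4) (by positivity)] with k hk
  rw [Real.dist_eq, sub_zero, abs_of_nonneg (w_nonneg K _ _)]
  have h1 : 1 / qr K ^ (1 + j) ≤ (1 / qr K) ^ j := by
    rw [div_pow, one_pow]
    apply div_le_div_of_nonneg_left (by norm_num) (by positivity)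
    exact pow_le_pow_right₀ hq1.le (by omega)
  linarith

theorem Z_tendsto (h2 : (2 : K) ≠ 0) :
    Tendsto (fun n : ℕ => (Z K n : ℝ) / qr K ^ (n * n)) atTop (𝓝 (1 / qr K)) := by
  have hq := qr_pos K
  rw [← tendsto_add_atTop_iff_nat 1]
  have h1 : ∀ m : ℕ, (Z K (m + 1) : ℝ) / qr K ^ ((m + 1) * (m + 1)) =
      1 / qr K * (1 + (qr K - 1) * w K m (m + 1)) := by
    intro m
    have h := Z_eq (K := K) m
    have h' : qr K * (Z K (m + 1) : ℝ) = qr K ^ (m + 1) * (qr K ^ (m * (m + 1)) +
      (qr K - 1) * W K m (m + 1)) := h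
    unfold w
    have e1 : qr K ^ ((m + 1) * (m + 1)) = qr K ^ (m * (m + 1)) * qr K ^ (m + 1) := by
      rw [← pow_add]; ring_nf
    rw [e1]
    have h3 : (Z K (m + 1) : ℝ) = (qr K ^ (m + 1) * (qr K ^ (m * (m + 1)) +
      (qr K - 1) * W K m (m + 1))) / qr K := by
      rw [← h']
      field_simp
    rw [h3]
    field_simp
  simp only [h1]
  have h4 := w_tendsto K h2
  have h5 := (((h4.const_mul (qr K - 1)).const_add 1).const_mul (1 / qr K))
  simpa using h5

end Pool.Agent.Q270.PV
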