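import Pool.Agent.Q270.PV.Count

/-!
# The permanent as a coefficient, and the number of matrices with permanent zero
-/

set_option autoImplicit false

open Finset

namespace Pool.Agent.Q270.PV

section
variable {K : Type*} [Field K] {ι : Type*} [DecidableEq ι] [Fintype ι]

theorem image_cons {k : ℕ} (j : ι) (g : Fin k → ι) :
    (univ.image (Fin.cons j g : Fin (k + 1) → ι)) = insert j (univ.image g) := by
  ext x
  simp only [Finset.mem_image, Finset.mem_univ, true_and, Finset.mem_insert]
  rw [Fin.exists_fin_succ]
  simp only [Fin.cons_zero, Fin.cons_succ, eq_comm]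

theorem cond_iff {k : ℕ} (T : Finset ι) (j : ι) (g : Fin k → ι) :
    (Function.Injective (Fin.cons j g : Fin (k + 1) → ι) ∧
      univ.image (Fin.cons j g : Fin (k + 1) → ι) = T) ↔
      j ∈ T ∧ (Function.Injective g ∧ univ.image g = T.erase j) := by
  rw [Fin.cons_injective_iff, image_cons]
  have hr : j ∉ Set.range g ↔ j ∉ univ.image g := by
    simp [Set.mem_range, Finset.mem_image]
  rw [hr]
  constructor
  · rintro ⟨⟨h1, h2⟩, h3⟩
    refine ⟨h3 ▸ Finset.mem_insert_self _ _, h2, ?_⟩
    rw [← h3, Finset.erase_insert h1]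
  · rintro ⟨h1, h2, h3⟩
    refine ⟨⟨?_, h2⟩, ?_⟩
    · rw [h3]; exact Finset.notMem_erase j T
    · rw [h3, Finset.insert_erase h1]

open Classical in
/-- The coefficients are permanents. -/
theorem F_eq_sum : ∀ (k : ℕ) (A : Fin k → ι → K) (T : Finset ι), F k A T =
    ∑ g : Fin k → ι, if Function.Injective g ∧ univ.image g = T then ∏ i, A i (g i) else 0
  | 0, A, T => by
    rw [F_zero, one, Fintype.sum_unique]
    simp only [Finset.univ_eq_empty, Finset.image_empty, Finset.prod_empty]
    by_cases h : T = ∅
    · rw [if_pos h, if_pos ⟨Function.injective_of_subsingleton _, h.symm⟩]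
    · rw [if_neg h, if_neg fun h' => h h'.2.symm]
  | k + 1, A, T => by
    rw [F_succ, mul, ← (Fin.consEquiv fun _ => ι).sum_comp, Fintype.sum_prod_type]
    rw [← Finset.sum_filter_add_sum_filter_not univ (fun j => j ∈ T)
      (fun j => ∑ g : Fin k → ι, if Function.Injective ((Fin.consEquiv fun _ => ι) (j, g)) ∧
        univ.image ((Fin.consEquiv fun _ => ι) (j, g)) = T then
        ∏ i, A i ((Fin.consEquiv fun _ => ι) (j, g) i) else 0)]
    have h0 : (∑ j ∈ univ.filter fun j => ¬ j ∈ T, ∑ g : Fin k → ι,
        if Function.Injective ((Fin.consEquiv fun _ => ι) (j, g)) ∧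
        univ.image ((Fin.consEquiv fun _ => ι) (j, g)) = T then
        ∏ i, A i ((Fin.consEquiv fun _ => ι) (j, g) i) else 0) = 0 := by
      refine Finset.sum_eq_zero fun j hj => Finset.sum_eq_zero fun g _ => ?_
      rw [if_neg]
      intro h
      exact (Finset.mem_filter.mp hj).2 ((cond_iff T j g).mp h).1
    rw [h0, add_zero, Finset.filter_mem_eq_inter, Finset.univ_inter]
    refine Finset.sum_congr rfl fun j hj => ?_
    rw [F_eq_sum k, Finset.mul_sum]
    refine Finset.sum_congr rfl fun g _ => ?_
    by_cases h : Function.Injective g ∧ univ.image g = T.erase j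
    · have h1 : Function.Injective ((Fin.consEquiv fun _ => ι) (j, g)) ∧
          univ.image ((Fin.consEquiv fun _ => ι) (j, g)) = T := (cond_iff T j g).mpr ⟨hj, h⟩
      rw [if_pos h, if_pos h1, Fin.prod_univ_succ]
      rfl
    · rw [if_neg h, if_neg, mul_zero]
      intro h1
      exact h ((cond_iff T j g).mp h1).2

end

variable {K : Type*} [Field K]

theorem F_univ (n : ℕ) (A : Fin n → Fin n → K) : F n A univ = (Matrix.of A).permanent := by
  classical
  rw [← Matrix.permanent_transpose, Matrix.permanent, F_eq_sum, ← Finset.sum_filter]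
  symm
  refine Finset.sum_bij (fun σ _ => (σ : Fin n → Fin n)) ?_ ?_ ?_ ?_
  · intro σ _
    refine Finset.mem_filter.mpr ⟨Finset.mem_univ _, σ.injective, ?_⟩
    exact Finset.image_univ_of_surjective σ.surjective
  · intro σ _ τ _ h
    exact DFunLike.coe_injective h
  · intro g hg
    have hg' := (Finset.mem_filter.mp hg).2.1
    exact ⟨Equiv.ofBijective g (Finite.injective_iff_bijective.mp hg'), Finset.mem_univ _, rfl⟩
  · intro σ _
    rfl

variable [Fintype K]

open Classical in
/-- The number of matrices with permanent zero. -/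
noncomputable def Z (K : Type*) [Field K] [Fintype K] (n : ℕ) : ℕ :=
  (univ.filter fun A : Matrix (Fin n) (Fin n) K => A.permanent = 0).card

open Classical in
/-- The number of first rows. -/
noncomputable def zeroc {m : ℕ} (f : Finset (Fin (m + 1)) → K) : ℕ :=
  (univ.filter fun a : Fin (m + 1) → K => mul a f univ = 0).card

theorem Z_succ (m : ℕ) : Z K (m + 1) = ∑ B : Fin m → Fin (m + 1) → K, zeroc (F m B) := by
  classical
  have h1 : Z K (m + 1) =
      (univ.filter fun A : Fin (m + 1) → Fin (m + 1) → K => F (m + 1) A univ = 0).card := by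
    unfold Z
    refine Finset.card_bij' (fun A _ => Matrix.of.symm A) (fun A _ => Matrix.of A) ?_ ?_ ?_ ?_
    · intro A hA
      refine Finset.mem_filter.mpr ⟨Finset.mem_univ _, ?_⟩
      rw [F_univ]
      exact (Finset.mem_filter.mp hA).2
    · intro A hA
      refine Finset.mem_filter.mpr ⟨Finset.mem_univ _, ?_⟩
      rw [← F_univ]
      exact (Finset.mem_filter.mp hA).2
    · intro A _; rfl
    · intro A _; rfl
  rw [h1, Finset.card_filter, ← (Fin.consEquiv fun _ => Fin (m + 1) → K).sum_comp,
    Fintype.sum_prod_type_right]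
  refine Finset.sum_congr rfl fun B _ => ?_
  unfold zeroc
  rw [Finset.card_filter]
  rfl

theorem zeroc_zero {m : ℕ} : zeroc (0 : Finset (Fin (m + 1)) → K) = Fintype.card K ^ (m + 1) := by
  classical
  unfold zeroc
  rw [Finset.filter_true_of_mem fun a _ => by rw [mul_zero_right]; rfl, Finset.card_univ, card_row]

theorem zeroc_ne {m : ℕ} (B : Fin m → Fin (m + 1) → K) (h : F m B ≠ 0) :
    Fintype.card K * zeroc (F m B) = Fintype.card K ^ (m + 1) := by
  classical
  obtain ⟨S, hS, hf⟩ := exists_coeff m B h
  obtain ⟨j, hj⟩ : ∃ j, j ∉ S := by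
    by_contra hcon
    push Not at hcon
    have : S = univ := Finset.eq_univ_of_forall hcon
    rw [this, Finset.card_univ, Fintype.card_fin] at hS
    omega
  have hSj : univ.erase j = S := by
    symm
    refine Finset.eq_of_subset_of_card_le ?_ ?_
    · intro x hx
      exact Finset.mem_erase.mpr ⟨fun e => hj (e ▸ hx), Finset.mem_univ _⟩
    · rw [Finset.card_erase_of_mem (Finset.mem_univ _), Finset.card_univ, Fintype.card_fin, hS,
        Nat.add_sub_cancel]
  set f := F m B with hfd
  have hv : mul (Pi.single j 1) f univ = f S := by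
    rw [mul_single, if_pos (Finset.mem_univ _), hSj]
  have h1 : ∀ c : K, (univ.filter fun a : Fin (m + 1) → K => mul a f univ = c).card = zeroc f := by
    intro c
    unfold zeroc
    refine Finset.card_bij' (fun a _ => a - (c / f S) • Pi.single j 1)
      (fun a _ => a + (c / f S) • Pi.single j 1) ?_ ?_ ?_ ?_
    · intro a ha
      refine Finset.mem_filter.mpr ⟨Finset.mem_univ _, ?_⟩
      rw [mul_sub_left, mul_smul_left, Pi.sub_apply, Pi.smul_apply, hv, (Finset.mem_filter.mp ha).2,
        smul_eq_mul, div_mul_cancel₀ _ hf, sub_self]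
    · intro a ha
      refine Finset.mem_filter.mpr ⟨Finset.mem_univ _, ?_⟩
      rw [mul_add_left, mul_smul_left, Pi.add_apply, Pi.smul_apply, hv, (Finset.mem_filter.mp ha).2,
        smul_eq_mul, div_mul_cancel₀ _ hf, zero_add]
    · intro a _; simp
    · intro a _; simp
  have h2 := Finset.card_eq_sum_card_fiberwise (f := fun a : Fin (m + 1) → K => mul a f univ)
    (s := univ) (t := (univ : Finset K)) (fun a _ => Finset.mem_coe.mpr (Finset.mem_univ _))
  rw [Finset.card_univ, card_row, Finset.sum_congr rfl fun c _ => h1 c, Finset.sum_const,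
    Finset.card_univ, smul_eq_mul] at h2
  exact h2.symm

/-- The number of matrices with permanent zero in terms of matrices with one row less. -/
theorem Z_eq (m : ℕ) : (Fintype.card K : ℝ) * Z K (m + 1) =
    (Fintype.card K : ℝ) ^ (m + 1) * (Fintype.card K ^ (m * (m + 1)) +
      (Fintype.card K - 1) * W K m (m + 1)) := by
  classical
  have h1 : ∀ B : Fin m → Fin (m + 1) → K, (Fintype.card K : ℝ) * zeroc (F m B) =
      (Fintype.card K : ℝ) ^ (m + 1) +
        (if F m B = 0 then (Fintype.card K : ℝ) ^ (m + 1) * (Fintype.card K - 1) else 0) := by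
    intro B
    split_ifs with h
    · rw [h, zeroc_zero]
      push_cast
      ring
    · rw [add_zero]
      exact_mod_cast zeroc_ne B h
  rw [Z_succ]
  push_cast
  rw [Finset.mul_sum, Finset.sum_congr rfl fun B _ => h1 B, Finset.sum_add_distrib, Finset.sum_const,
    ← Finset.sum_filter, Finset.sum_const, Finset.card_univ, card_mat]
  have h2 : (univ.filter fun B : Fin m → Fin (m + 1) → K => F m B = 0).card = W K m (m + 1) := by
    unfold W
    congr
  rw [h2]
  simp only [nsmul_eq_mul]
  push_cast
  ring

end Pool.Agent.Q270.PV
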